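import Mathlib

namespace Pool.Agent.Results.MP_df8e9b_al.Restrict

open Filter Topology Finset
open scoped Pointwise symmDiff ENNReal Classical

universe u v

/-- `F g △ F`. -/
noncomputable def sd {G : Type u} [Group G] (g : G) (F : Finset G) : Finset G :=
  (F.image (· * g)) ∆ F

/-- `|F g △ F| / |F|`. -/
noncomputable def ratio {G : Type u} [Group G] (g : G) (F : Finset G) : ℝ :=
  ((sd g F).card : ℝ) / F.card

/-- The right Folner filter: a net of finite sets is a right Folner net exactly when it tends to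
this filter. -/
noncomputable def folner (G : Type u) [Group G] : Filter (Finset G) :=
  𝓟 {F | F.Nonempty} ⊓ ⨅ g : G, comap (ratio g) (𝓝 0)

/-- The trajectory `T_F (α, X) = ∑_{g ∈ F} g • X` (sumset). -/
noncomputable def traj {G : Type u} {A : Type v} [Group G] [AddCommGroup A] [DistribMulAction G A]
    (F : Finset G) (X : Finset A) : Finset A := ∑ g ∈ F, g • X

/-- `H_alg (α, X)`. -/
noncomputable def Halg (G : Type u) {A : Type v} [Group G] [AddCommGroup A] [DistribMulAction G A]
    (X : Finset A) : ℝ≥0∞ :=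
  limsup (fun F : Finset G => ENNReal.ofReal (Real.log (traj F X).card / F.card)) (folner G)

/-- `h_alg (α)`. -/
noncomputable def halg (G : Type u) (A : Type v) [Group G] [AddCommGroup A]
    [DistribMulAction G A] : ℝ≥0∞ :=
  ⨆ (X : Finset A) (_ : X.Nonempty), Halg G X

/-- `ent (α)`. -/
noncomputable def ent (G : Type u) (A : Type v) [Group G] [AddCommGroup A]
    [DistribMulAction G A] : ℝ≥0∞ :=
  ⨆ (X : Finset A) (_ : ∃ S : AddSubgroup A, (S : Set A) = X), Halg G X

theorem basis {G : Type u} [Group G] {s : Set (Finset G)}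
    (hs : s ∈ ⨅ g : G, comap (ratio g) (𝓝 0)) :
    ∃ (K : Finset G) (δ : ℝ), 0 < δ ∧ ∀ E, (∀ k ∈ K, ratio k E < δ) → E ∈ s := by
  refine iInf_sets_induct (p := fun s => ∃ (K : Finset G) (δ : ℝ), 0 < δ ∧
    ∀ E, (∀ k ∈ K, ratio k E < δ) → E ∈ s) hs ⟨∅, 1, one_pos, fun _ _ => trivial⟩ ?_
  rintro g s₁ s₂ h1 ⟨K, δ, hδ, h2⟩
  obtain ⟨t, ht, h3⟩ := mem_comap.1 h1
  obtain ⟨ε, hε, h4⟩ := Metric.mem_nhds_iff.1 ht
  refine ⟨insert g K, min δ ε, lt_min hδ hε, fun E hE => ⟨h3 (h4 ?_), h2 E fun k hk =>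
    (hE k (mem_insert_of_mem hk)).trans_le (min_le_left _ _)⟩⟩
  rw [mem_ball_zero_iff, Real.norm_of_nonneg (by unfold ratio; positivity)]
  exact (hE g (mem_insert_self _ _)).trans_le (min_le_right _ _)

theorem log_sum {A : Type v} [AddCommGroup A] {ι : Type*} (s : Finset ι) (S : ι → Finset A)
    (hS : ∀ i, (S i).Nonempty) : (∑ i ∈ s, S i).Nonempty ∧
      Real.log (∑ i ∈ s, S i).card ≤ ∑ i ∈ s, Real.log (S i).card := by
  induction s using Finset.induction_on with
  | empty => simp
  | insert a s ha ih =>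
    rw [sum_insert ha, sum_insert ha]
    refine ⟨(hS a).add ih.1, ?_⟩
    have h1 : (0 : ℝ) < (S a).card := by exact_mod_cast (hS a).card_pos
    have h2 : (0 : ℝ) < (∑ i ∈ s, S i).card := by exact_mod_cast ih.1.card_pos
    have h3 : (0 : ℝ) < (S a + ∑ i ∈ s, S i).card := by
      exact_mod_cast ((hS a).add ih.1).card_pos
    have h4 : ((S a + ∑ i ∈ s, S i).card : ℝ) ≤ (S a).card * (∑ i ∈ s, S i).card := by
      exact_mod_cast card_add_le
    have h5 := Real.log_le_log h3 h4
    rw [Real.log_mul h1.ne' h2.ne'] at h5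
    linarith [ih.2]

variable {G : Type u} {A : Type v} [Group G] [AddCommGroup A] [DistribMulAction G A]

theorem traj_le (F : Finset G) {X : Finset A} (hX : X.Nonempty) :
    Real.log (traj F X).card ≤ F.card * Real.log X.card := by
  refine (log_sum F (fun g => g • X) fun g => hX.smul_finset).2.trans ?_
  simp [card_smul_finset]

noncomputable def slice (H : Subgroup G) (g : G) (F : Finset G) : Finset H :=
  F.preimage (fun h : H => g * h) fun _ _ _ _ e => Subtype.ext (mul_left_cancel e)

theorem slice_image (H : Subgroup G) (g : G) (F : Finset G) :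
    (slice H g F).image (fun h : H => g * h) =
      F.filter fun x : G => (x : G ⧸ H) = (g : G ⧸ H) := by
  ext x
  simp only [slice, mem_image, mem_preimage, mem_filter]
  constructor
  · rintro ⟨h, h1, rfl⟩
    exact ⟨h1, by simp⟩
  · rintro ⟨h1, h2⟩
    exact ⟨⟨g⁻¹ * x, QuotientGroup.eq.1 h2.symm⟩, by simpa using h1, by simp⟩

theorem slice_card (H : Subgroup G) (g : G) (F : Finset G) :
    (slice H g F).card = (F.filter fun x : G => (x : G ⧸ H) = (g : G ⧸ H)).card := by
  rw [← slice_image, card_image_of_injective _ fun _ _ e => Subtype.ext (mul_left_cancel e)]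

theorem slice_symm (H : Subgroup G) (g : G) (F : Finset G) (k : H) :
    sd k (slice H g F) = slice H g (sd (k : G) F) := by
  ext h
  simp only [sd, slice, mem_symmDiff, image_mul_right, mem_preimage, Subgroup.coe_mul, mul_assoc,
    Subgroup.coe_inv]

theorem slice_traj (H : Subgroup G) (g : G) (F : Finset G) (X : Finset A) :
    (traj (F.filter fun x : G => (x : G ⧸ H) = (g : G ⧸ H)) X).card
      = (traj (slice H g F) X).card := by
  rw [← slice_image, traj, sum_image fun _ _ _ _ e => Subtype.ext (mul_left_cancel e),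
    ← card_smul_finset g (traj _ X), traj, Finset.smul_sum]
  simp only [mul_smul]
  rfl

theorem key {X : Finset A} (hX : X.Nonempty) (K : Finset G) {c δ : ℝ} (hc0 : 0 ≤ c) (hδ : 0 < δ)
    (hK : ∀ E : Finset G, (∀ k ∈ K, ratio k E < δ) → E.Nonempty →
      Real.log (traj E X).card / E.card < c) (E : Finset G) :
    Real.log (traj E X).card ≤
      c * E.card + Real.log X.card / δ * ∑ k ∈ K, ((sd k E).card : ℝ) := by
  have hL : 0 ≤ Real.log X.card := Real.log_nonneg (by exact_mod_cast hX.card_pos)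
  have h3 := traj_le E hX
  generalize Real.log X.card = L at *
  have hs : 0 ≤ ∑ k ∈ K, ((sd k E).card : ℝ) := sum_nonneg fun _ _ => Nat.cast_nonneg _
  rcases E.eq_empty_or_nonempty with rfl | hE
  · simp [traj, sd]
  have hE' : (0 : ℝ) < E.card := by exact_mod_cast hE.card_pos
  by_cases h : ∀ k ∈ K, ratio k E < δ
  · have h2 := hK E h hE
    rw [div_lt_iff₀ hE'] at h2
    have := mul_nonneg (div_nonneg hL hδ.le) hs
    linarith
  · push Not at h
    obtain ⟨k, hk, h⟩ := h
    rw [ratio, le_div_iff₀ hE'] at h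
    have h2 := single_le_sum (f := fun k => ((sd k E).card : ℝ))
      (fun _ _ => Nat.cast_nonneg _) hk
    have h4 : L / δ * (δ * E.card) ≤ L / δ * ∑ k ∈ K, ((sd k E).card : ℝ) :=
      mul_le_mul_of_nonneg_left (h.trans h2) (div_nonneg hL hδ.le)
    have h5 : L / δ * (δ * E.card) = E.card * L := by field_simp
    have : 0 ≤ c * E.card := by positivity
    linarith

theorem key2 (H : Subgroup G) {X : Finset A} (hX : X.Nonempty) (K : Finset H) {c M : ℝ}
    (hc0 : 0 ≤ c) (hM : 0 ≤ M) (key : ∀ E : Finset H, Real.log (traj E X).card ≤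
      c * E.card + M * ∑ k ∈ K, ((sd k E).card : ℝ)) (F : Finset G) :
    Real.log (traj F X).card ≤ c * F.card + M * ∑ k ∈ K, ((sd (k : G) F).card : ℝ) := by
  obtain ⟨Q, hQ⟩ : ∃ Q : Finset (G ⧸ H), ∀ x ∈ F, (x : G ⧸ H) ∈ Q :=
    ⟨F.image fun x : G => (x : G ⧸ H), fun x hx => mem_image_of_mem _ hx⟩
  have e1 : traj F X = ∑ q ∈ Q, traj (F.filter fun x : G => (x : G ⧸ H) = q) X :=
    (sum_fiberwise_of_maps_to hQ _).symm
  have e2 : ∀ B : Finset G, ∑ q ∈ Q, ((slice H q.out B).card : ℝ) ≤ B.card := fun B => by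
    simp only [slice_card, QuotientGroup.out_eq']
    rw [← Nat.cast_sum, sum_card_fiberwise_eq_card_filter]
    exact_mod_cast card_filter_le _ _
  rw [e1]
  refine (log_sum Q (fun q => traj (F.filter fun x : G => (x : G ⧸ H) = q) X)
    fun q => (log_sum _ (fun g : G => g • X) fun g => hX.smul_finset).1).2.trans ?_
  have e3 : ∀ q ∈ Q, Real.log (traj (F.filter fun x : G => (x : G ⧸ H) = q) X).card ≤
      c * (slice H q.out F).card + M * ∑ k ∈ K,
        ((slice H q.out (sd (k : G) F)).card : ℝ) := fun q _ => by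
    have := key (slice H q.out F)
    rw [← slice_traj, QuotientGroup.out_eq'] at this
    simpa only [slice_symm] using this
  refine (sum_le_sum e3).trans ?_
  rw [sum_add_distrib, ← mul_sum, ← mul_sum, sum_comm]
  exact add_le_add (mul_le_mul_of_nonneg_left (e2 F) hc0)
    (mul_le_mul_of_nonneg_left (sum_le_sum fun k _ => e2 _) hM)

theorem tend (g : G) : Tendsto (ratio g) (folner G) (𝓝 0) :=
  tendsto_iff_comap.2 (inf_le_right.trans (iInf_le (fun g : G => comap (ratio g) (𝓝 0)) g))

theorem Halg_le (H : Subgroup G) {X : Finset A} (hX : X.Nonempty) : Halg G X ≤ Halg H X := by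
  refine le_of_forall_gt_imp_ge_of_dense fun b hb => ?_
  obtain ⟨c', hc0', hc1', hc2'⟩ := ENNReal.lt_iff_exists_real_btwn.1 hb
  obtain ⟨c, hc0, hc1, hc2⟩ := ENNReal.lt_iff_exists_real_btwn.1 hc1'
  have hcc : c < c' := (ENNReal.ofReal_lt_ofReal_iff_of_nonneg hc0).1 hc2
  unfold Halg at hc1 ⊢
  have h1 := eventually_lt_of_limsup_lt hc1
  rw [folner, inf_comm, eventually_inf_principal] at h1
  obtain ⟨K, δ, hδ, hK⟩ := basis h1
  simp only [Set.mem_setOf_eq] at hK
  have hL : 0 ≤ Real.log X.card := Real.log_nonneg (by exact_mod_cast hX.card_pos)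
  have k2 := key2 H hX K hc0 (div_nonneg hL hδ.le) (key hX K hc0 hδ fun E h hE =>
    (ENNReal.ofReal_lt_ofReal_iff'.1 (hK E h hE)).1)
  generalize Real.log X.card / δ = M at k2
  have t1 : Tendsto (fun F : Finset G => c + M * ∑ k ∈ K, ratio (k : G) F) (folner G)
      (𝓝 (c + M * ∑ _k ∈ K, 0)) :=
    ((tendsto_finset_sum K fun k _ => tend (k : G)).const_mul M).const_add c
  rw [sum_const_zero, mul_zero, add_zero] at t1
  refine limsup_le_of_le (by isBoundedDefault) ?_
  have hne : ∀ᶠ F in folner G, F.Nonempty :=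
    mem_inf_of_left (mem_principal_self {F : Finset G | F.Nonempty})
  filter_upwards [t1.eventually (gt_mem_nhds hcc), hne] with F h2 hF
  refine (ENNReal.ofReal_le_ofReal ?_).trans hc2'.le
  have hF' : (0 : ℝ) < F.card := by exact_mod_cast hF.card_pos
  refine le_trans ?_ h2.le
  simp only [ratio]
  rw [← sum_div, div_le_iff₀ hF']
  refine (k2 F).trans (le_of_eq ?_)
  field_simp

/-- Restricting an action to a subgroup does not decrease the algebraic entropies. -/
theorem result (G : Type u) (A : Type v) [Group G] [AddCommGroup A] [DistribMulAction G A]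
    (H : Subgroup G) : halg G A ≤ halg H A ∧ ent G A ≤ ent H A := by
  refine ⟨iSup₂_mono fun X hX => Halg_le H hX, iSup₂_mono fun X hX => Halg_le H ?_⟩
  obtain ⟨S, hS⟩ := hX
  exact ⟨0, by rw [← mem_coe, ← hS]; exact S.zero_mem⟩

end Pool.Agent.Results.MP_df8e9b_al.Restrict
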